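import Pool.Agent.H380.AG.Stm

set_option autoImplicit false

open MeasureTheory Metric Set Filter Topology
open scoped ENNReal RealInnerProductSpace

namespace Pool.Agent.H92.AG

open Pool.Agent.W778.AG Pool.Agent.H380.AG

noncomputable section

/-- `u + i b` -/
def zf {n : ℕ} (u b : En n) : Fin n → ℂ := fun i => (u i : ℂ) + Complex.I * (b i : ℂ)

/-- bilinear form -/
def bil {n : ℕ} (z z' : Fin n → ℂ) : ℂ := ∑ i, z i * z' i

lemma cd_add_smul {n : ℕ} (y : En n) (z z' : Fin n → ℂ) (s : ℂ) :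
    cd y (z + s • z') = cd y z + s * cd y z' := by
  unfold cd
  rw [Finset.mul_sum, ← Finset.sum_add_distrib]
  exact Finset.sum_congr rfl fun i _ => by
    simp only [Pi.add_apply, Pi.smul_apply, smul_eq_mul]; ring

lemma qf_add_smul {n : ℕ} (z z' : Fin n → ℂ) (s : ℂ) :
    qf (z + s • z') = qf z + 2 * s * bil z z' + s ^ 2 * qf z' := by
  unfold qf bil
  rw [Finset.mul_sum, Finset.mul_sum, ← Finset.sum_add_distrib, ← Finset.sum_add_distrib]
  exact Finset.sum_congr rfl fun i _ => by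
    simp only [Pi.add_apply, Pi.smul_apply, smul_eq_mul]; ring

lemma inner_sum {n : ℕ} (x y : En n) : ⟪x, y⟫ = ∑ i, x i * y i := by
  rw [PiLp.inner_apply]
  exact Finset.sum_congr rfl fun i _ => by simp [mul_comm]

lemma cd_zf {n : ℕ} (x u b : En n) :
    cd x (zf u b) = ((⟪x, u⟫ : ℝ) : ℂ) + Complex.I * ((⟪x, b⟫ : ℝ) : ℂ) := by
  unfold cd zf
  rw [inner_sum, inner_sum]
  push_cast
  rw [Finset.mul_sum, ← Finset.sum_add_distrib]
  exact Finset.sum_congr rfl fun i _ => by ring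

lemma bil_zf {n : ℕ} (z : Fin n → ℂ) (w c : En n) :
    bil z (zf w c) = 1 * cd w z + Complex.I * cd c z := by
  unfold bil cd zf
  rw [one_mul, Finset.mul_sum, ← Finset.sum_add_distrib]
  exact Finset.sum_congr rfl fun i _ => by ring

lemma qf_zf {n : ℕ} (u b : En n) (hu : ‖u‖ = 1) (hb : ‖b‖ = 1) (h : ⟪b, u⟫ = 0) :
    qf (zf u b) = 0 := by
  have h1 : (∑ i, (u i : ℝ) * u i) = 1 := by
    rw [← inner_sum, real_inner_self_eq_norm_sq, hu]; norm_num
  have h2 : (∑ i, (b i : ℝ) * b i) = 1 := by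
    rw [← inner_sum, real_inner_self_eq_norm_sq, hb]; norm_num
  have h3 : (∑ i, (b i : ℝ) * u i) = 0 := by rw [← inner_sum, h]
  have h4 : qf (zf u b) = ((∑ i, (u i : ℝ) * u i : ℝ) : ℂ) - ((∑ i, (b i : ℝ) * b i : ℝ) : ℂ)
      + 2 * Complex.I * ((∑ i, (b i : ℝ) * u i : ℝ) : ℂ) := by
    unfold qf zf
    push_cast
    rw [Finset.mul_sum, ← Finset.sum_sub_distrib, ← Finset.sum_add_distrib]
    refine Finset.sum_congr rfl fun i _ => ?_
    have : Complex.I ^ 2 = -1 := Complex.I_sq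
    linear_combination (b i : ℂ) ^ 2 * this
  rw [h4, h1, h2, h3]
  simp

lemma integ {X : Type} [TopologicalSpace X] [MeasurableSpace X] [OpensMeasurableSpace X]
    (μ : Measure X) [IsFiniteMeasure μ] (K : Set X) (hK : IsCompact K)
    (h : ∀ᵐ x ∂μ, x ∈ K) (f : X → ℂ) (hf : Continuous f) : Integrable f μ := by
  obtain ⟨C, hC⟩ := hK.exists_bound_of_continuousOn hf.continuousOn
  exact Integrable.of_bound hf.aestronglyMeasurable C (h.mono fun x hx => hC x hx)

lemma ae_sph {n : ℕ} {σ : Measure (En n)} (h : Sph σ) : ∀ᵐ x ∂σ, x ∈ sphere (0 : En n) 1 := by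
  rw [ae_iff]
  exact h.2

lemma cont_cd {n : ℕ} (z : Fin n → ℂ) : Continuous fun y : En n => cd y z := by
  unfold cd
  fun_prop

lemma cont_zf2 {n : ℕ} (u : En n) : Continuous fun p : En n × En n => cd p.1 (zf u p.2) := by
  unfold cd zf
  fun_prop

/-- the mixed moment -/
lemma mixed {n : ℕ} (h4 : S_CM) (hn : 3 ≤ n) (σ : Measure (En n)) (hσ : Uni n σ) (k : ℕ)
    (z z' : Fin n → ℂ) (hz : qf z = 0) (hz' : qf z' = 0) :
    ((2 * k).choose k : ℂ) * ∫ y, cd y z ^ k * cd y z' ^ k ∂σ =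
      (mom (n + 1) (2 * k) : ℂ) * 2 ^ k * bil z z' ^ k := by
  have hpr : IsProbabilityMeasure σ := hσ.1.1
  have hint : ∀ a b : ℕ, Integrable (fun y => cd y z ^ a * cd y z' ^ b) σ := by
    intro a b
    refine integ σ _ (isCompact_sphere (0 : En n) 1) (ae_sph hσ.1) _ ?_
    exact ((cont_cd z).pow a).mul ((cont_cd z').pow b)
  set a : ℕ → ℂ := fun j => ∫ y, cd y z ^ (2 * k - j) * cd y z' ^ j ∂σ with ha
  let P : Polynomial ℂ := ∑ j ∈ Finset.range (2 * k + 1),
    Polynomial.monomial j (((2 * k).choose j : ℂ) * a j)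
  let Q : Polynomial ℂ := Polynomial.monomial k ((mom (n + 1) (2 * k) : ℂ) * (2 * bil z z') ^ k)
  have hPQ : P = Q := by
    apply Polynomial.funext
    intro s
    have h5 := (h4 n hn σ hσ (z + s • z') k).1
    rw [qf_add_smul, hz, hz'] at h5
    simp_rw [cd_add_smul] at h5
    have h6 : ∫ y, (cd y z + s * cd y z') ^ (2 * k) ∂σ =
        ∑ j ∈ Finset.range (2 * k + 1), ((2 * k).choose j : ℂ) * a j * s ^ j := by
      have e1 : ∀ y : En n, (cd y z + s * cd y z') ^ (2 * k) =
          ∑ j ∈ Finset.range (2 * k + 1), ((2 * k).choose j : ℂ) * s ^ j *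
            (cd y z ^ (2 * k - j) * cd y z' ^ j) := by
        intro y
        rw [add_comm, add_pow]
        exact Finset.sum_congr rfl fun j _ => by rw [mul_pow]; ring
      simp_rw [e1]
      rw [integral_finsetSum]
      · refine Finset.sum_congr rfl fun j _ => ?_
        rw [integral_const_mul]
        simp only [ha]
        ring
      · intro j _
        exact (hint _ _).const_mul _
    have h7 : P.eval s = ∑ j ∈ Finset.range (2 * k + 1), ((2 * k).choose j : ℂ) * a j * s ^ j := by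
      simp only [P]
      rw [Polynomial.eval_finsetSum]
      exact Finset.sum_congr rfl fun j _ => by rw [Polynomial.eval_monomial]
    have h8 : Q.eval s = (mom (n + 1) (2 * k) : ℂ) * (2 * bil z z') ^ k * s ^ k := by
      simp only [Q]
      rw [Polynomial.eval_monomial]
    rw [h7, h8, ← h6, h5]
    ring
  have hc : P.coeff k = Q.coeff k := by rw [hPQ]
  have hP : P.coeff k = ((2 * k).choose k : ℂ) * a k := by
    simp only [P]
    rw [Polynomial.finsetSum_coeff]
    simp_rw [Polynomial.coeff_monomial]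
    rw [Finset.sum_ite_eq' ]
    rw [if_pos (by rw [Finset.mem_range]; omega)]
  have hQ : Q.coeff k = (mom (n + 1) (2 * k) : ℂ) * (2 * bil z z') ^ k := by
    simp only [Q]
    rw [Polynomial.coeff_monomial, if_pos rfl]
  rw [hP, hQ] at hc
  have hk : 2 * k - k = k := by omega
  simp only [ha, hk] at hc
  rw [hc]
  ring

lemma kappa_pos (n k : ℕ) : 0 < LE n (fun φ => (1 - Real.cos φ) ^ k) := by
  unfold Pool.Agent.W778.AG.LE
  apply div_pos
  · apply intervalIntegral.intervalIntegral_pos_of_pos_on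
    · apply Continuous.intervalIntegrable
      fun_prop
    · intro x hx
      have h1 : Real.cos x < 1 := by
        have h2 := Real.cos_lt_cos_of_nonneg_of_le_pi (le_refl 0) hx.2.le hx.1
        rwa [Real.cos_zero] at h2
      have h2 : 0 < Real.sin x := Real.sin_pos_of_pos_of_lt_pi hx.1 hx.2
      have h3 : 0 < 1 - Real.cos x := by linarith
      positivity
    · exact Real.pi_pos
  · exact integral_sin_pow_pos _

theorem t_CONV (h1 : S_PERP) (h2 : S_ISO) (h3 : S_LV) (h4 : S_CM) (h5 : S_MOM) : S_CONV := by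
  intro n hn σ hσ k
  set M : ℝ := mom (n + 1) (2 * k) with hM
  set κ : ℝ := LE n (fun φ => (1 - Real.cos φ) ^ k) with hκ
  have hMpos : 0 < M := (h5 (n + 1) (by omega)).2.1 k
  have hκpos : 0 < κ := kappa_pos n k
  have hCpos : 0 < (((2 * k).choose k : ℕ) : ℝ) := by
    exact_mod_cast Nat.choose_pos (by omega)
  refine ⟨M * 2 ^ k * κ / ((2 * k).choose k : ℕ), by positivity, fun u w hu hw => ?_⟩
  obtain ⟨σu, hσu⟩ := h1 n hn u hu
  obtain ⟨σw, hσw⟩ := h1 n hn w hw
  have hp : IsProbabilityMeasure σ := hσ.1.1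
  have hpu : IsProbabilityMeasure σu := hσu.1.1
  have hpw : IsProbabilityMeasure σw := hσw.1.1
  have hS := ae_sph hσ.1
  have hSu := ae_sph hσu.1
  have hSw := ae_sph hσw.1
  have hPu : ∀ᵐ b ∂σu, ⟪b, u⟫ = 0 := by
    rw [ae_iff]; exact hσu.2.1
  have hPw : ∀ᵐ c ∂σw, ⟪c, w⟫ = 0 := by
    rw [ae_iff]; exact hσw.2.1
  have hqu : ∀ᵐ b ∂σu, qf (zf u b) = 0 := by
    filter_upwards [hSu, hPu] with b hb hb'
    exact qf_zf u b hu (by simpa using hb) hb'
  have hqw : ∀ᵐ c ∂σw, qf (zf w c) = 0 := by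
    filter_upwards [hSw, hPw] with c hc hc'
    exact qf_zf w c hw (by simpa using hc) hc'
  -- product measure facts
  have hpr1 : ∀ᵐ p ∂(σu.prod σw), p.1 ∈ sphere (0 : En n) 1 :=
    Measure.quasiMeasurePreserving_fst.ae hSu
  have hpr2 : ∀ᵐ p ∂(σu.prod σw), p.2 ∈ sphere (0 : En n) 1 :=
    Measure.quasiMeasurePreserving_snd.ae hSw
  have hprq1 : ∀ᵐ p ∂(σu.prod σw), qf (zf u p.1) = 0 :=
    Measure.quasiMeasurePreserving_fst.ae hqu
  have hprq2 : ∀ᵐ p ∂(σu.prod σw), qf (zf w p.2) = 0 :=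
    Measure.quasiMeasurePreserving_snd.ae hqw
  have hpr : ∀ᵐ p ∂(σu.prod σw), p ∈ (sphere (0 : En n) 1) ×ˢ (sphere (0 : En n) 1) := by
    filter_upwards [hpr1, hpr2] with p h h'
    exact ⟨h, h'⟩
  have hK2 : IsCompact ((sphere (0 : En n) 1) ×ˢ (sphere (0 : En n) 1)) :=
    (isCompact_sphere _ _).prod (isCompact_sphere _ _)
  have hpr3 : ∀ᵐ q ∂(σ.prod (σu.prod σw)),
      q ∈ (sphere (0 : En n) 1) ×ˢ ((sphere (0 : En n) 1) ×ˢ (sphere (0 : En n) 1)) := by
    have e1 : ∀ᵐ q ∂(σ.prod (σu.prod σw)), q.1 ∈ sphere (0 : En n) 1 :=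
      Measure.quasiMeasurePreserving_fst.ae hS
    have e2 : ∀ᵐ q ∂(σ.prod (σu.prod σw)),
        q.2 ∈ (sphere (0 : En n) 1) ×ˢ (sphere (0 : En n) 1) :=
      Measure.quasiMeasurePreserving_snd.ae hpr
    filter_upwards [e1, e2] with q h h'
    exact ⟨h, h'⟩
  have hK3 : IsCompact ((sphere (0 : En n) 1) ×ˢ
      ((sphere (0 : En n) 1) ×ˢ (sphere (0 : En n) 1))) := (isCompact_sphere _ _).prod hK2
  -- the triple function
  have hF : Continuous fun q : En n × (En n × En n) =>
      cd q.1 (zf u q.2.1) ^ k * cd q.1 (zf w q.2.2) ^ k := by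
    have c1 : Continuous fun q : En n × (En n × En n) => cd q.1 (zf u q.2.1) :=
      (cont_zf2 u).comp (continuous_fst.prodMk (continuous_fst.comp continuous_snd))
    have c2 : Continuous fun q : En n × (En n × En n) => cd q.1 (zf w q.2.2) :=
      (cont_zf2 w).comp (continuous_fst.prodMk (continuous_snd.comp continuous_snd))
    exact (c1.pow k).mul (c2.pow k)
  have hFi : Integrable (fun q : En n × (En n × En n) =>
      cd q.1 (zf u q.2.1) ^ k * cd q.1 (zf w q.2.2) ^ k) (σ.prod (σu.prod σw)) :=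
    integ _ _ hK3 hpr3 _ hF
  -- left side
  have hL : ((∫ y, Pg n k ⟪u, y⟫ * Pg n k ⟪y, w⟫ ∂σ : ℝ) : ℂ) =
      ∫ y, ∫ p, cd y (zf u p.1) ^ k * cd y (zf w p.2) ^ k ∂(σu.prod σw) ∂σ := by
    rw [← integral_complex_ofReal]
    apply integral_congr_ae
    filter_upwards [hS] with y hy
    have hy1 : ‖y‖ = 1 := by simpa using hy
    have e1 := h3 n hn u σu hu hσu k y hy1
    have e2 := h3 n hn w σw hw hσw k y hy1
    simp_rw [← cd_zf] at e1 e2
    rw [Complex.ofReal_mul, real_inner_comm y u, e1, e2]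
    exact (integral_prod_mul (fun b => cd y (zf u b) ^ k) (fun c => cd y (zf w c) ^ k)).symm
  have hmain : ((∫ y, Pg n k ⟪u, y⟫ * Pg n k ⟪y, w⟫ ∂σ : ℝ) : ℂ) =
      ((M * 2 ^ k * κ / ((2 * k).choose k : ℕ) * Pg n k ⟪u, w⟫ : ℝ) : ℂ) := by
    rw [hL, integral_integral_swap hFi]
    have hC0 : (((2 * k).choose k : ℕ) : ℂ) ≠ 0 := by
      have : (2 * k).choose k ≠ 0 := (Nat.choose_pos (by omega)).ne'
      exact_mod_cast this
    have e1 : ∫ p, ∫ y, cd y (zf u p.1) ^ k * cd y (zf w p.2) ^ k ∂σ ∂(σu.prod σw) =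
        ∫ p, ((M : ℂ) * 2 ^ k / ((2 * k).choose k : ℕ)) * bil (zf u p.1) (zf w p.2) ^ k
          ∂(σu.prod σw) := by
      apply integral_congr_ae
      filter_upwards [hprq1, hprq2] with p hp1 hp2
      have e2 := mixed h4 hn σ hσ k (zf u p.1) (zf w p.2) hp1 hp2
      rw [← hM] at e2
      field_simp
      linear_combination e2
    rw [e1, integral_const_mul]
    have hG : Continuous fun p : En n × En n => bil (zf u p.1) (zf w p.2) ^ k := by
      unfold bil zf
      fun_prop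
    have hGi : Integrable (fun p : En n × En n => bil (zf u p.1) (zf w p.2) ^ k)
        (σu.prod σw) := integ _ _ hK2 hpr _ hG
    rw [integral_prod _ hGi]
    have e3 : ∫ b, ∫ c, bil (zf u b) (zf w c) ^ k ∂σw ∂σu =
        ∫ b, cd w (zf u b) ^ k * (κ : ℂ) ∂σu := by
      apply integral_congr_ae
      filter_upwards [hqu] with b hb
      have e4 := h2 n hn w σw hw hσw k 1 Complex.I (zf u b) hb
      simp_rw [bil_zf]
      rw [e4]
      congr 1
      unfold LC
      rw [hκ]
      unfold Pool.Agent.W778.AG.LE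
      rw [Complex.ofReal_div]
      refine congrArg (fun t : ℂ => t / _) ?_
      rw [← intervalIntegral.integral_ofReal]
      apply intervalIntegral.integral_congr
      intro φ _
      have : Complex.I * Complex.I = -1 := Complex.I_mul_I
      simp only [this]
      push_cast
      ring
    rw [e3, integral_mul_const]
    have e5 := h3 n hn u σu hu hσu k w hw
    simp_rw [← cd_zf] at e5
    rw [← e5, real_inner_comm]
    push_cast
    ring
  exact_mod_cast hmain

end

end Pool.Agent.H92.AG
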